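import Pool.Agent.SubSol.Basic
import Pool.Agent.SubSol.TwoGroup

/-!
MP_528470_co, Q1: every finite transitive set of points of a Euclidean space is subsoluble; the
transitive group of the larger set can even be chosen to be a finite `2`-group.
-/

namespace Pool.Agent.Results.MP_528470_co.EveryTransitiveSet

open Pool.Agent.SubSol

/-- A set `X` of points of `ℝᵈ` is transitive: it is finite, and the group of isometries of `ℝᵈ`
that map `X` onto itself acts transitively on `X`. -/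
def TransitiveSet {d : ℕ} (X : Set (EuclideanSpace ℝ (Fin d))) : Prop :=
  X.Finite ∧ ∀ x ∈ X, ∀ y ∈ X, ∃ g : EuclideanSpace ℝ (Fin d) ≃ᵢ EuclideanSpace ℝ (Fin d),
    g '' X = X ∧ g x = y

/-- A set `X` of points of `ℝᵈ` is `2`-subsoluble: for some `n ≥ d` there are a finite set `Y` in
`ℝⁿ`, a finite `2`-group `G` of isometries of `ℝⁿ`, each of which maps `Y` onto itself, that acts
transitively on `Y`, and a distance-preserving map from `ℝᵈ` to `ℝⁿ` that maps `X` into `Y`. -/
def TwoSubsoluble {d : ℕ} (X : Set (EuclideanSpace ℝ (Fin d))) : Prop :=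
  ∃ n : ℕ, d ≤ n ∧ ∃ (Y : Set (EuclideanSpace ℝ (Fin n)))
    (G : Subgroup (EuclideanSpace ℝ (Fin n) ≃ᵢ EuclideanSpace ℝ (Fin n))),
    Y.Finite ∧ Finite G ∧ IsPGroup 2 G ∧ (∀ g ∈ G, g '' Y = Y) ∧
    (∀ x ∈ Y, ∀ y ∈ Y, ∃ g ∈ G, g x = y) ∧
    ∃ f : EuclideanSpace ℝ (Fin d) → EuclideanSpace ℝ (Fin n), Isometry f ∧ f '' X ⊆ Y

theorem TwoSubsoluble.subsoluble {d : ℕ} {X : Set (EuclideanSpace ℝ (Fin d))}
    (h : TwoSubsoluble X) : Subsoluble X := by
  obtain ⟨n, hn, Y, G, hY, hG, h2, hG1, hG2, f, hf, hfX⟩ := h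
  have hp : Fact (Nat.Prime 2) := ⟨Nat.prime_two⟩
  have hnil : Group.IsNilpotent G := h2.isNilpotent
  exact ⟨n, hn, Y, ⟨hY, G, inferInstance, hG1, hG2⟩, f, hf, hfX⟩

/-- **Every transitive set is subsoluble.** The larger set can be chosen such that a finite
`2`-group of isometries acts transitively on it. -/
theorem result : ∀ (d : ℕ) (X : Set (EuclideanSpace ℝ (Fin d))), TransitiveSet X →
    Subsoluble X ∧ TwoSubsoluble X := by
  intro d X hX
  have h : TwoSubsoluble X := TwoGroup.main X hX.1 hX.2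
  exact ⟨h.subsoluble, h⟩

end Pool.Agent.Results.MP_528470_co.EveryTransitiveSet
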